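import Pool.Agent.H29.FX.Targets

/-!
# Triples with few exponents (MP_7ecdd4_nt): row CLA, the bound for one class
-/

set_option autoImplicit false

open Finset MvPolynomial

namespace Pool.Agent.H85.TFX

open Pool.Agent.H29.FX

private lemma cla_mono {n : ℕ} {Y : ℝ} {B B' : ℕ} {f : Pl n} (hY : 1 ≤ Y) (hB : B ≤ B')
    (h : Cx Y B f) : Cx Y B' f :=
  ⟨h.deg.trans hB, h.le.trans (pow_le_pow_right₀ hY hB)⟩

private lemma cla_sol {n : ℕ} {pt : Fin n → Fin 3} {e : Fin n → ℕ} {u : Fin 3 → ℤ}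
    {X M M' H : ℝ} {z : Fin n → ℤ} (hX : 1 ≤ X) (hM : M ≤ M') (h : Sol pt e u X M' H z) :
    Sol pt e u X M H z := by
  refine ⟨h.pos, h.le, h.sum, h.cop, ?_, h.sml⟩
  obtain ⟨a, ha⟩ := h.big
  exact ⟨a, (Real.rpow_le_rpow_of_exponent_le hX hM).trans_lt ha⟩

private lemma cla_const (K δ : ℝ) (hK : 0 ≤ K) (hδ : 0 < δ) (Y : ℝ) (hY : K ^ (2 / δ) ≤ Y) :
    K ≤ Y ^ (δ / 2) := by
  have h1 : (K ^ (2 / δ)) ^ (δ / 2) = K := by
    rw [← Real.rpow_mul hK]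
    have : 2 / δ * (δ / 2) = 1 := by field_simp
    rw [this, Real.rpow_one]
  calc K = (K ^ (2 / δ)) ^ (δ / 2) := h1.symm
    _ ≤ Y ^ (δ / 2) := Real.rpow_le_rpow (Real.rpow_nonneg hK _) hY (by positivity)

theorem pf_CLA (hALG : T_ALG) (hCLS : T_CLS) (hDER : T_DER) : T_CLA := by
  classical
  intro n m B δ hδ _ hRec
  obtain ⟨B₁, Y₁, hY₁, hcls⟩ := hCLS n δ hδ
  set B₂ : ℕ := max B (B₁ + B₁ * B₁) with hB₂
  obtain ⟨M, c, Y₂, hM, hc, hY₂, hrec⟩ := hRec B₂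
  set K : ℝ := ((n ^ B₁ * ((B₁ + 1) * n) : ℕ) : ℝ) with hK
  have hK0 : 0 ≤ K := Nat.cast_nonneg _
  refine ⟨M, c, max (max Y₁ Y₂) (K ^ (2 / δ)), hM, hc,
    hY₁.trans ((le_max_left _ _).trans (le_max_left _ _)), ?_⟩
  intro Y M' H pt e u L g j p x₀ S hY hMM hH he hu hL hcard hCx hj hp hYp hS hinj
  have hYY₁ : Y₁ ≤ Y := ((le_max_left _ _).trans (le_max_left _ _)).trans hY
  have hYY₂ : Y₂ ≤ Y := ((le_max_right _ _).trans (le_max_left _ _)).trans hY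
  have hYK : K ^ (2 / δ) ≤ Y := (le_max_right _ _).trans hY
  have hY2 : 2 ≤ Y := hY₁.trans hYY₁
  have hY1 : 1 ≤ Y := by linarith
  have hY0 : 0 ≤ Y := by linarith
  set T : ℝ := Y ^ (((m : ℝ) + 1) * (2 * n + 4) * δ) with hT
  have hT0 : 0 ≤ T := Real.rpow_nonneg hY0 _
  rcases S.eq_empty_or_nonempty with rfl | ⟨z₀, hz₀⟩
  · rw [Finset.card_empty, Nat.cast_zero]
    exact mul_nonneg (Real.rpow_nonneg hY0 _) hT0
  obtain ⟨hALG1, hALG2, hALG3, hALG4, hALG5⟩ := hALG n L hL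
  have hpZ : Prime (p : ℤ) := Nat.prime_iff_prime_int.mp hp
  have hz₀' := hS z₀ hz₀
  have hTJ : ¬ (p : ℤ) ∣ eval z₀ (TJ ((g, j) :: L)) := by
    have h1 : TJ ((g, j) :: L) = TJ L * TD L j g := rfl
    rw [h1, map_mul]
    intro h2
    rcases hpZ.dvd_or_dvd h2 with h3 | h3
    · exact hz₀'.2.2.2.1 h3
    · exact hz₀'.2.2.2.2.1 h3
  obtain ⟨G, hG0, hGv, hGC, hGS⟩ := hcls Y L g j p z₀ S hYY₁ hL hj hp hYp hz₀ hTJ (by
    intro y hy
    have hy' := hS y hy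
    refine ⟨hy'.1.pos, hy'.1.le, fun v => ?_, fun q hq => ?_⟩
    · have h1 := dvd_sub (hy'.2.2.2.2.2 v) (hz₀'.2.2.2.2.2 v)
      have h2 : y v - x₀ v - (z₀ v - x₀ v) = y v - z₀ v := by ring
      rwa [h2] at h1
    · rcases List.mem_cons.mp hq with rfl | hq
      · exact hy'.2.2.1
      · exact hy'.2.1 q hq)
  let Q : (Fin B₁ → Fin n) × Fin (B₁ + 1) × Fin n → Pl n := fun t =>
    pl ((List.ofFn t.1).take (t.2.1 : ℕ)) G
  let P : (Fin B₁ → Fin n) × Fin (B₁ + 1) × Fin n → (Fin n → ℤ) → Prop := fun t z =>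
    eval z (Q t) = 0 ∧ eval z (pderiv t.2.2 (Q t)) ≠ 0 ∧ t.2.2 ∈ G.vars ∧
      (Q t).vars ⊆ G.vars ∧ Cx Y (B₁ + B₁ * B₁) (Q t)
  have hcov : S ⊆ (univ : Finset ((Fin B₁ → Fin n) × Fin (B₁ + 1) × Fin n)).biUnion
      fun t => S.filter (P t) := by
    intro z hz
    obtain ⟨f, b, i, h1, h2, h3, h4, h5⟩ := hDER n B₁ Y G z hY2 hG0 hGC (hGS z hz)
    rw [Finset.mem_biUnion]
    exact ⟨(f, b, i), Finset.mem_univ _, Finset.mem_filter.mpr ⟨hz, h1, h2, h3, h4, h5⟩⟩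
  have hone : ∀ t, ((S.filter (P t)).card : ℝ) ≤ T := by
    intro t
    rcases (S.filter (P t)).eq_empty_or_nonempty with h0 | ⟨z₁, hz₁⟩
    · rw [h0, Finset.card_empty, Nat.cast_zero]
      exact hT0
    obtain ⟨hz₁S, -, -, ht3, ht4, ht5⟩ := Finset.mem_filter.mp hz₁
    have hi : t.2.2 ∈ TI L := hGv ht3
    have hQv : (Q t).vars ⊆ TI L := ht4.trans hGv
    have hTD : TD L t.2.2 (Q t) = TJ L * pderiv t.2.2 (Q t) := hALG4 (Q t) hQv t.2.2 hi
    refine hrec Y H pt e u ((Q t, t.2.2) :: L) (S.filter (P t)) hYY₂ hH he hu ⟨hi, hL⟩ ?_ ?_ ?_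
      ?_
    · change ((TI L).erase t.2.2).card = m
      rw [Finset.card_erase_of_mem hi, hcard, Nat.add_sub_cancel]
    · intro q hq
      rcases List.mem_cons.mp hq with rfl | hq
      · exact cla_mono hY1 (le_max_right _ _) ht5
      · exact cla_mono hY1 (le_max_left _ _) (hCx q hq)
    · intro z hz
      obtain ⟨hzS, hz1, hz2, -, -, -⟩ := Finset.mem_filter.mp hz
      have hz' := hS z hzS
      refine ⟨cla_sol hY1 hMM hz'.1, ?_, ?_⟩
      · intro q hq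
        rcases List.mem_cons.mp hq with rfl | hq
        · exact hz1
        · exact hz'.2.1 q hq
      · have h1 : TJ ((Q t, t.2.2) :: L) = TJ L * TD L t.2.2 (Q t) := rfl
        have h2 : eval z (TJ L) ≠ 0 := fun h => hz'.2.2.2.1 (h ▸ dvd_zero _)
        rw [h1, hTD, map_mul, map_mul]
        exact mul_ne_zero h2 (mul_ne_zero h2 hz2)
    · exact hinj.mono (by
        intro z hz
        exact (Finset.mem_filter.mp hz).1)
  have hidx : ((univ : Finset ((Fin B₁ → Fin n) × Fin (B₁ + 1) × Fin n)).card : ℝ) = K := by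
    rw [hK, Finset.card_univ, Fintype.card_prod, Fintype.card_prod, Fintype.card_fun,
      Fintype.card_fin, Fintype.card_fin, Fintype.card_fin]
  calc (S.card : ℝ)
      ≤ (((univ : Finset ((Fin B₁ → Fin n) × Fin (B₁ + 1) × Fin n)).biUnion
          fun t => S.filter (P t)).card : ℝ) := by exact_mod_cast Finset.card_le_card hcov
    _ ≤ ((∑ t : (Fin B₁ → Fin n) × Fin (B₁ + 1) × Fin n, (S.filter (P t)).card : ℕ) : ℝ) := by
        exact_mod_cast Finset.card_biUnion_le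
    _ = ∑ t : (Fin B₁ → Fin n) × Fin (B₁ + 1) × Fin n, ((S.filter (P t)).card : ℝ) := by
        push_cast
        rfl
    _ ≤ ∑ _t : (Fin B₁ → Fin n) × Fin (B₁ + 1) × Fin n, T :=
        Finset.sum_le_sum fun t _ => hone t
    _ = K * T := by rw [Finset.sum_const, nsmul_eq_mul, hidx]
    _ ≤ Y ^ (δ / 2) * T :=
        mul_le_mul_of_nonneg_right (cla_const K δ hK0 hδ Y hYK) hT0

end Pool.Agent.H85.TFX
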