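import Pool.Agent.H29.FX.Targets

/-!
# Triples with few exponents (MP_7ecdd4_nt): row RPR, the representation by powers
-/

set_option autoImplicit false

open Finset

namespace Pool.Agent.H85.TFX

open Pool.Agent.H29.FX
open Pool.Agent.H38.AE.Statement

private lemma rpr_enum (k : ℕ) (E : Finset ℕ) (h1 : ∀ e ∈ E, 1 ≤ e) (hk : E.card ≤ k) :
    ∃ en : Fin k → ℕ, (∀ j, 1 ≤ en j) ∧ ∀ e ∈ E, ∃ j, en j = e := by
  classical
  refine ⟨fun j => E.toList.getD j 1, fun j => ?_, fun e he => ?_⟩
  · rcases lt_or_ge (j : ℕ) E.toList.length with hj | hj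
    · change 1 ≤ E.toList.getD (j : ℕ) 1
      rw [List.getD_eq_getElem _ _ hj]
      exact h1 _ (Finset.mem_toList.mp (List.getElem_mem hj))
    · change 1 ≤ E.toList.getD (j : ℕ) 1
      rw [List.getD_eq_default _ _ hj]
  · obtain ⟨n, hn, rfl⟩ := List.getElem_of_mem (Finset.mem_toList.mpr he)
    have hn' : n < k := lt_of_lt_of_le (by simpa using hn) hk
    exact ⟨⟨n, hn'⟩, List.getD_eq_getElem _ _ hn⟩

/-- fibres -/
private lemma rpr_fib (k : ℕ) (E : Finset ℕ) (h1 : ∀ e ∈ E, 1 ≤ e) (hk : E.card ≤ k) :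
    ∃ (en : Fin k → ℕ), (∀ j, 1 ≤ en j) ∧ ∀ (S : Finset ℕ) (v : ℕ → ℕ),
      (∀ p ∈ S, p ≠ 0 ∧ v p ∈ E) → ∃ z : Fin k → ℕ, (∀ j, 1 ≤ z j) ∧
        ∏ j, z j ^ en j = ∏ p ∈ S, p ^ v p ∧ ∏ j, z j = ∏ p ∈ S, p := by
  classical
  obtain ⟨en, hen1, henE⟩ := rpr_enum k E h1 hk
  refine ⟨en, hen1, fun S v hS => ?_⟩
  rcases Nat.eq_zero_or_pos k with rfl | hkpos
  · have hE : E = ∅ := Finset.card_eq_zero.mp (Nat.le_zero.mp hk)
    have hS0 : S = ∅ := by
      rw [Finset.eq_empty_iff_forall_notMem]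
      intro p hp
      have := (hS p hp).2
      rw [hE] at this
      simp at this
    subst hS0
    exact ⟨fun _ => 1, fun _ => le_refl _, by simp, by simp⟩
  · have : Nonempty (Fin k) := ⟨⟨0, hkpos⟩⟩
    choose! J hJ using henE
    have hz1 : ∀ j, 1 ≤ ∏ p ∈ S.filter (fun p => J (v p) = j), p := by
      intro j
      apply Nat.one_le_iff_ne_zero.mpr
      rw [Finset.prod_ne_zero_iff]
      intro p hp
      exact (hS p (Finset.mem_filter.mp hp).1).1
    refine ⟨fun j => ∏ p ∈ S.filter (fun p => J (v p) = j), p, hz1, ?_, ?_⟩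
    · have h2 : ∀ j, (∏ p ∈ S.filter (fun p => J (v p) = j), p) ^ en j =
          ∏ p ∈ S.filter (fun p => J (v p) = j), p ^ v p := by
        intro j
        rw [← Finset.prod_pow]
        refine Finset.prod_congr rfl fun p hp => ?_
        rw [Finset.mem_filter] at hp
        rw [← hp.2, hJ _ (hS p hp.1).2]
      simp only [h2]
      exact Finset.prod_fiberwise S (fun p => J (v p)) (fun p => p ^ v p)
    · exact Finset.prod_fiberwise S (fun p => J (v p)) (fun p => p)

theorem pf_RPR : T_RPR := by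
  classical
  intro k Q Y x hx _ hY hk
  obtain ⟨hne, hcop, -⟩ := hx
  set a : Fin 3 → ℕ := fun i => (x i).natAbs with ha
  have ha0 : ∀ i, a i ≠ 0 := fun i => Int.natAbs_ne_zero.mpr (hne i)
  set N : ℕ := (∏ i, x i).natAbs with hN
  have hNa : N = ∏ i, a i := by
    rw [hN, ha, Fin.prod_univ_three, Fin.prod_univ_three, Int.natAbs_mul, Int.natAbs_mul]
  have hcopa : ∀ i j, i ≠ j → Nat.Coprime (a i) (a j) := fun i j hij =>
    Int.isCoprime_iff_gcd_eq_one.mp (hcop i j hij)
  have hN0 : N ≠ 0 := by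
    rw [hNa, Finset.prod_ne_zero_iff]
    exact fun i _ => ha0 i
  have hmem : ∀ i, ∀ p ∈ (a i).primeFactors, p ∈ N.primeFactors := by
    intro i p hp
    rw [Nat.mem_primeFactors] at hp ⊢
    refine ⟨hp.1, hp.2.1.trans ?_, hN0⟩
    rw [hNa]
    exact Finset.dvd_prod_of_mem _ (Finset.mem_univ i)
  have hfac : ∀ i, ∀ p ∈ (a i).primeFactors, N.factorization p = (a i).factorization p := by
    intro i p hp
    rw [hNa, Nat.factorization_prod (fun j _ => ha0 j), Finset.sum_apply']
    refine Finset.sum_eq_single_of_mem i (Finset.mem_univ i) fun j _ hji => ?_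
    apply Nat.factorization_eq_zero_of_not_dvd
    intro hpj
    rw [Nat.mem_primeFactors] at hp
    have := Nat.dvd_gcd hpj hp.2.1
    rw [(hcopa j i hji)] at this
    exact hp.1.one_lt.ne' (Nat.dvd_one.mp this)
  have hE1 : ∀ e ∈ exponents Q (∏ i, x i), 1 ≤ e := by
    intro e he
    unfold exponents at he
    rw [Finset.mem_image] at he
    obtain ⟨p, hp, rfl⟩ := he
    rw [Finset.mem_filter, Nat.mem_primeFactors] at hp
    exact (hp.1.1.dvd_iff_one_le_factorization hp.1.2.2).mp hp.1.2.1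
  obtain ⟨en, hen1, hfib⟩ := rpr_fib k _ hE1 hk
  have hS : ∀ i, ∀ p ∈ (a i).primeFactors.filter (fun p => ¬ p ∣ Q),
      p ≠ 0 ∧ N.factorization p ∈ exponents Q (∏ i, x i) := by
    intro i p hp
    rw [Finset.mem_filter] at hp
    refine ⟨(Nat.prime_of_mem_primeFactors hp.1).ne_zero, ?_⟩
    unfold exponents
    rw [Finset.mem_image]
    exact ⟨p, Finset.mem_filter.mpr ⟨hmem i p hp.1, hp.2⟩, rfl⟩
  choose z hz1 hz2 hz3 using fun i => hfib _ (fun p => N.factorization p) (hS i)
  set w : Fin 3 → ℕ := fun i => ∏ p ∈ (a i).primeFactors.filter (fun p => p ∣ Q),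
    p ^ N.factorization p with hw
  have hsplit : ∀ i, a i = w i * ∏ j, z i j ^ en j := by
    intro i
    rw [hz2 i, hw]
    simp only
    rw [Finset.prod_filter_mul_prod_filter_not]
    conv_lhs => rw [← Nat.prod_factorization_pow_eq_self (ha0 i)]
    rw [Finsupp.prod, Nat.support_factorization]
    exact Finset.prod_congr rfl fun p hp => by rw [hfac i p hp]
  have hw0 : ∀ i, w i ≠ 0 := by
    intro i h
    apply ha0 i
    rw [hsplit i, h, zero_mul]
  refine ⟨fun i => (x i).sign * (w i : ℤ), fun i => ⟨?_, ?_, ?_⟩, ?_⟩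
  · exact mul_ne_zero (by rw [Ne, Int.sign_eq_zero_iff_zero]; exact hne i)
      (by exact_mod_cast hw0 i)
  · have h1 : |(x i).sign * (w i : ℤ)| = (w i : ℤ) := by
      rw [abs_mul, Int.abs_sign_of_ne_zero (hne i), one_mul, Nat.abs_cast]
    rw [h1, ← Int.natCast_natAbs]
    have h2 : w i ≤ a i := by
      rw [hsplit i]
      refine Nat.le_mul_of_pos_right _ (Nat.pos_of_ne_zero ?_)
      intro h
      apply ha0 i
      rw [hsplit i, h, mul_zero]
    exact_mod_cast h2
  · intro p hp hpu
    have h1 : (p : ℤ) ∣ (w i : ℤ) := by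
      have h2 : IsUnit (x i).sign := by
        rw [Int.isUnit_iff]
        rcases lt_or_gt_of_ne (hne i) with h | h
        · right; exact Int.sign_eq_neg_one_of_neg h
        · left; exact Int.sign_eq_one_of_pos h
      exact (h2.dvd_mul_left).mp hpu
    have h3 : p ∣ w i := by exact_mod_cast h1
    rw [hw] at h3
    simp only at h3
    obtain ⟨q, hq, hpq⟩ := (hp.prime.dvd_finsetProd_iff _).mp h3
    rw [Finset.mem_filter] at hq
    have h4 : p = q := (Nat.prime_dvd_prime_iff_eq hp (Nat.prime_of_mem_primeFactors hq.1)).mp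
      (hp.dvd_of_dvd_pow hpq)
    rw [h4]
    exact hq.2
  · refine ⟨z, fun _ => en, fun i j => ⟨hz1 i j, hen1 j⟩, fun i => ?_, ?_⟩
    · have h1 : ((a i : ℕ) : ℤ) = (w i : ℤ) * ∏ j, (z i j : ℤ) ^ en j := by
        have := congrArg (fun t : ℕ => (t : ℤ)) (hsplit i)
        push_cast at this
        exact this
      have h2 : x i = (x i).sign * ((a i : ℕ) : ℤ) := (Int.sign_mul_natAbs (x i)).symm
      calc x i = (x i).sign * ((a i : ℕ) : ℤ) := h2
        _ = (x i).sign * (w i : ℤ) * ∏ j, (z i j : ℤ) ^ en j := by rw [h1, mul_assoc]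
    · have h1 : ∏ i, ∏ j, z i j ≤ radical (∏ i, x i) := by
        have h2 : radical (∏ i, x i) = ∏ i, ∏ p ∈ (a i).primeFactors, p := by
          unfold radical
          rw [← hN]
          rw [← Finset.prod_biUnion]
          · refine Finset.prod_congr ?_ fun _ _ => rfl
            ext p
            rw [Finset.mem_biUnion]
            constructor
            · intro hp
              have hp' := hp
              rw [Nat.mem_primeFactors] at hp
              have hd := hp.2.1
              rw [hNa] at hd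
              obtain ⟨i, -, hi⟩ := (hp.1.prime.dvd_finsetProd_iff _).mp hd
              exact ⟨i, Finset.mem_univ i, Nat.mem_primeFactors.mpr ⟨hp.1, hi, ha0 i⟩⟩
            · rintro ⟨i, -, hi⟩
              exact hmem i p hi
          · intro i _ j _ hij
            exact (hcopa i j hij).disjoint_primeFactors
        rw [h2]
        refine Finset.prod_le_prod' fun i _ => ?_
        rw [hz3 i]
        refine Finset.prod_le_prod_of_subset_of_one_le' (Finset.filter_subset _ _) ?_
        intro p hp _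
        exact (Nat.prime_of_mem_primeFactors hp).one_lt.le
      have h3 : (∏ i, ∏ j, (z i j : ℝ)) = ((∏ i, ∏ j, z i j : ℕ) : ℝ) := by push_cast; rfl
      rw [h3]
      exact le_trans (by exact_mod_cast h1) hY

end Pool.Agent.H85.TFX
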